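import Pool.Agent.N809.SN.Fin
import Pool.Agent.N809.P17.Tw

/-!
# Simultaneous non-vanishing of two quadratic twists for the newform of level 17

Let `f` be the newform of weight two and level `17`, that is of the elliptic curve
`y² + x y + y = x³ - x² - x - 14` (no complex multiplication). We answer the question for `f` and every
quadratic character `χ`, that is the character of a quadratic field `ℚ(√d)`: there is a quadratic
character `ψ` such that the central values of `L(f ⊗ ψ, s)` and `L(f ⊗ χψ, s)` are both different from zero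
if and only if `χ` is not at the same time odd and `1` at `17`.

In the exceptional case the signs of the two functional equations are opposite for every `ψ`. In all other
cases there are infinitely many `ψ`: there is a residue class such that ALL prime numbers `l` of the class
give such a character `ψ`, namely that of `ℚ(√-l)` if `χ` is even and `χ(17) ≠ -1`, of `ℚ(√(-17 l))` if `χ` is
even and `χ(17) = -1`, and of `ℚ(√(k l))` if `χ` is odd and `χ(17) ≠ 1`; here `k` is any fixed prime number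
which is `3` modulo `4`, inert in `ℚ(√17)` and unramified in `ℚ(√d)`.

The proof: the central value of the twist by `m` is not zero if a symmetric matrix over `F_2` of Legendre
symbols of the prime divisors of `m` is invertible (joint work of helpers 969, 970, 971, 972, 973, 974, 975,
99, 218, 402, 575, 609, 809, 816, 844, 855, 871, 875, 877, 886, 890, 916, 919 and others, see
`Results/MP_696deb_nt/Conductor17.lean`); here we show that the symbols of one more prime `l` can be chosen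
such that the matrices of both twists are invertible (helper809).
-/

set_option autoImplicit false

open Finset

namespace Pool.Agent.Results.MP_d17ed7_nt.LevelSeventeen

/-- the coefficient `a_p` of the newform of level `17`: `p + 1` minus the number of the points modulo
`p`, the point at infinity included, of `y² + x y + y = x³ - x² - x - 14` -/
noncomputable def a (p : ℕ) : ℤ := (p : ℤ) - Nat.card {q : ZMod p × ZMod p //
  q.2 ^ 2 + q.1 * q.2 + q.2 = q.1 ^ 3 - q.1 ^ 2 - q.1 - 14}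

/-- the value at the prime `p` of the quadratic character of `ℚ(√m)`, `m` squarefree (the trivial
character if `m = 1`); it is `0` if `p` is ramified -/
def chi (m : ℤ) (p : ℕ) : ℤ :=
  if p = 2 then (if m % 8 = 1 then 1 else if m % 8 = 5 then -1 else 0) else jacobiSym m p

/-- `F` is entire and is, for `Re s > 3/2`, the complete Euler product of the newform `f` of level `17`
twisted by the character `ψ` of `ℚ(√m)`: `F s = L(f ⊗ ψ, s - 1/2)`, so that the centre is `s = 1` -/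
def IsL (m : ℤ) (F : ℂ → ℂ) : Prop :=
  Differentiable ℂ F ∧ ∀ s : ℂ, (3 : ℝ) / 2 < s.re →
    HasProd (fun p : Nat.Primes => (1 - ((chi m p * a p : ℤ) : ℂ) * ((p : ℕ) : ℂ) ^ (-s) +
      (if (p : ℕ) = 17 then 0 else ((chi m p ^ 2 : ℤ) : ℂ) * ((p : ℕ) : ℂ) ^ (1 - 2 * s)))⁻¹) (F s)

/-- the central value of `L(f ⊗ ψ, s)`, `ψ` the character of `ℚ(√m)`, is not zero -/
def NonVanishing (m : ℤ) : Prop := ∃ F : ℂ → ℂ, IsL m F ∧ F 1 ≠ 0

/-- for squarefree `d`, `m`, `n`: the primitive character inducing the product of the characters of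
`ℚ(√d)` and `ℚ(√m)` is the character of `ℚ(√n)` -/
def Product (d m n : ℤ) : Prop := IsSquare (d * m * n)

section proof

open Pool.Agent.N809.P17.Tw
open Pool.Agent.N919.BS (Rt17)
open Pool.Agent.N875.P17 (Sg)
open Pool.Agent.W97.MT (ap affCount)
open Pool.Agent.N974.Gen (E17)

theorem a_eq (p : ℕ) : a p = ap E17 p := by
  unfold a ap affCount
  congr 2
  refine Nat.card_congr (Equiv.subtypeEquivRight fun P => ?_)
  rw [WeierstrassCurve.Affine.equation_iff]
  simp only [E17, WeierstrassCurve.map, map_one, map_neg, map_ofNat, one_mul]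
  constructor
  · intro h
    linear_combination h
  · intro h
    linear_combination h

theorem isL_iff (m : ℤ) (F : ℂ → ℂ) : IsL m F ↔ IsLt m F := by
  unfold IsL IsLt
  refine and_congr Iff.rfl (forall_congr' fun s => forall_congr' fun _ => ?_)
  have e : (fun p : Nat.Primes => (1 - ((chi m p * a p : ℤ) : ℂ) * ((p : ℕ) : ℂ) ^ (-s) +
      (if (p : ℕ) = 17 then 0 else ((chi m p ^ 2 : ℤ) : ℂ) * ((p : ℕ) : ℂ) ^ (1 - 2 * s)))⁻¹) =
      fun p : Nat.Primes => (1 - ((Pool.Agent.N809.P17.Tw.chi m p * ap E17 p : ℤ) : ℂ) *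
        ((p : ℕ) : ℂ) ^ (-s) + (if (p : ℕ) = 17 then 0 else
        ((Pool.Agent.N809.P17.Tw.chi m p ^ 2 : ℤ) : ℂ) * ((p : ℕ) : ℂ) ^ (1 - 2 * s)))⁻¹ := by
    funext p
    rw [a_eq]
    rfl
  rw [e]

theorem nv_of {m : ℤ} (hs : Squarefree m) (h : Sg m) : NonVanishing m := by
  obtain ⟨F, h1, -, -, h2⟩ := main hs
  exact ⟨F, (isL_iff m F).2 h1, h2 h⟩

theorem nv_root {m : ℤ} (hs : Squarefree m) (h : NonVanishing m) : Rt17 m := by
  obtain ⟨F, h1, h2⟩ := h
  obtain ⟨G, -, h4, h5, -⟩ := main hs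
  by_contra hR
  have h6 := h4 F ((isL_iff m F).1 h1)
  rw [h6] at h2
  exact h2 (h5 hR)

/-- the pairs in the case `d > 0`, `17` not inert -/
theorem case1 {d : ℤ} (hs : Squarefree d) (hd : 0 < d) (hj : jacobiSym d 17 ≠ -1) :
    ∃ t : ℕ, Nat.Coprime t (136 * d.natAbs) ∧ ∀ l : ℕ, l.Prime → l ≡ t [MOD 136 * d.natAbs] →
      Squarefree (-(l : ℤ)) ∧ Squarefree (-(l : ℤ) * d) ∧
      NonVanishing (-(l : ℤ)) ∧ NonVanishing (-(l : ℤ) * d) := by
  obtain ⟨t, ht, h⟩ := Pool.Agent.N809.SN.pos1 hs hd hj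
  refine ⟨t, ht, fun l hl hm => ?_⟩
  obtain ⟨h3, h4, h5, h6⟩ := h l hl hm
  exact ⟨h3, h4, nv_of h3 h5, nv_of h4 h6⟩

/-- the pairs in the case `d > 0`, `17` inert -/
theorem case2 {d : ℤ} (hs : Squarefree d) (hd : 0 < d) (hj : jacobiSym d 17 = -1) :
    ∃ t : ℕ, Nat.Coprime t (136 * d.natAbs) ∧ ∀ l : ℕ, l.Prime → l ≡ t [MOD 136 * d.natAbs] →
      Squarefree (-17 * (l : ℤ)) ∧ Squarefree (-17 * (l : ℤ) * d) ∧
      NonVanishing (-17 * (l : ℤ)) ∧ NonVanishing (-17 * (l : ℤ) * d) := by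
  obtain ⟨t, ht, h⟩ := Pool.Agent.N809.SN.pos2 hs hd hj
  refine ⟨t, ht, fun l hl hm => ?_⟩
  obtain ⟨h3, h4, h5, h6⟩ := h l hl hm
  have e1 : -(l : ℤ) * 17 = -17 * (l : ℤ) := by ring
  have e2 : -(l : ℤ) * (17 * d) = -17 * (l : ℤ) * d := by ring
  rw [e1] at h3 h5
  rw [e2] at h4 h6
  exact ⟨h3, h4, nv_of h3 h5, nv_of h4 h6⟩

/-- the pairs in the case `d < 0`, `17` not split -/
theorem case3 {d : ℤ} (hs : Squarefree d) (hd : d < 0) (hj : jacobiSym d 17 ≠ 1) {k : ℕ}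
    (k1 : k.Prime) (k3 : k % 4 = 3) (k8 : jacobiSym 17 k = -1) (hkd : ¬ (k : ℤ) ∣ d) :
    ∃ t : ℕ, Nat.Coprime t (136 * (k * d.natAbs)) ∧
      ∀ l : ℕ, l.Prime → l ≡ t [MOD 136 * (k * d.natAbs)] →
      Squarefree ((k : ℤ) * l) ∧ Squarefree ((k : ℤ) * l * d) ∧
      NonVanishing ((k : ℤ) * l) ∧ NonVanishing ((k : ℤ) * l * d) := by
  obtain ⟨t, ht, h⟩ := Pool.Agent.N809.SN.neg hs hd hj k1 k3 k8 hkd
  refine ⟨t, ht, fun l hl hm => ?_⟩
  obtain ⟨h3, h4, h5, h6⟩ := h l hl hm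
  have e1 : -(l : ℤ) * -(k : ℤ) = (k : ℤ) * l := by ring
  have e2 : -(l : ℤ) * (-(k : ℤ) * d) = (k : ℤ) * l * d := by ring
  rw [e1] at h3 h5
  rw [e2] at h4 h6
  exact ⟨h3, h4, nv_of h3 h5, nv_of h4 h6⟩

theorem prod_mk (d m : ℤ) : Product d m (m * d) := ⟨d * m, by ring⟩

end proof

/-- **The newform of level 17.** -/
theorem result :
    -- the twisted `L`-functions
    (∀ m : ℤ, Squarefree m → ∃ F : ℂ → ℂ, IsL m F ∧ ∀ G : ℂ → ℂ, IsL m G → G = F) ∧
    ∀ d : ℤ, Squarefree d → d ≠ 1 →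
      -- the answer for the character of `ℚ(√d)`
      ((∃ m n : ℤ, Squarefree m ∧ m ≠ 1 ∧ Squarefree n ∧ Product d m n ∧
        NonVanishing m ∧ NonVanishing n) ↔ ¬ (d < 0 ∧ jacobiSym d 17 = 1)) ∧
      -- infinitely many characters
      (0 < d → jacobiSym d 17 ≠ -1 → ∃ t : ℕ, Nat.Coprime t (136 * d.natAbs) ∧
        ∀ l : ℕ, l.Prime → l ≡ t [MOD 136 * d.natAbs] →
          Squarefree (-(l : ℤ)) ∧ Squarefree (-(l : ℤ) * d) ∧
          NonVanishing (-(l : ℤ)) ∧ NonVanishing (-(l : ℤ) * d)) ∧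
      (0 < d → jacobiSym d 17 = -1 → ∃ t : ℕ, Nat.Coprime t (136 * d.natAbs) ∧
        ∀ l : ℕ, l.Prime → l ≡ t [MOD 136 * d.natAbs] →
          Squarefree (-17 * (l : ℤ)) ∧ Squarefree (-17 * (l : ℤ) * d) ∧
          NonVanishing (-17 * (l : ℤ)) ∧ NonVanishing (-17 * (l : ℤ) * d)) ∧
      (d < 0 → jacobiSym d 17 ≠ 1 → ∀ k : ℕ, k.Prime → k % 4 = 3 → jacobiSym 17 k = -1 →
        ¬ (k : ℤ) ∣ d → ∃ t : ℕ, Nat.Coprime t (136 * (k * d.natAbs)) ∧
        ∀ l : ℕ, l.Prime → l ≡ t [MOD 136 * (k * d.natAbs)] →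
          Squarefree ((k : ℤ) * l) ∧ Squarefree ((k : ℤ) * l * d) ∧
          NonVanishing ((k : ℤ) * l) ∧ NonVanishing ((k : ℤ) * l * d)) := by
  refine ⟨fun m hs => ?_, fun d hs h1 => ⟨⟨?_, fun h => ?_⟩, fun h2 h3 => case1 hs h2 h3,
    fun h2 h3 => case2 hs h2 h3, fun h2 h3 k k1 k2 k3 k4 => case3 hs h2 h3 k1 k2 k3 k4⟩⟩
  · obtain ⟨F, h1, h2, -⟩ := Pool.Agent.N809.P17.Tw.main hs
    exact ⟨F, (isL_iff m F).2 h1, fun G hG => h2 G ((isL_iff m G).1 hG)⟩
  · rintro ⟨m, n, hm, -, hn, hp, k1, k2⟩ ⟨h2, h3⟩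
    exact Pool.Agent.N809.SN.obst hm hn h2 h3 hp (nv_root hm k1) (nv_root hn k2)
  · have h0 : d ≠ 0 := hs.ne_zero
    have ha : d.natAbs ≠ 0 := Int.natAbs_ne_zero.2 h0
    rcases lt_or_gt_of_ne h0 with h2 | h2
    · have h3 : jacobiSym d 17 ≠ 1 := fun h3 => h ⟨h2, h3⟩
      obtain ⟨k, k1, kB, k3, k4⟩ := Pool.Agent.N809.SN.exists_k d.natAbs
      have hkd : ¬ (k : ℤ) ∣ d := fun hd => by
        have := Nat.le_of_dvd (Int.natAbs_pos.2 h0) (Int.natCast_dvd.1 hd)
        omega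
      obtain ⟨t, ht, hc⟩ := case3 hs h2 h3 k1 k3 k4 hkd
      obtain ⟨l, l1, -, l2⟩ := Pool.Agent.N809.SN.dir
        (mul_ne_zero (by norm_num) (mul_ne_zero k1.ne_zero ha)) ht 0
      obtain ⟨h4, h5, h6, h7⟩ := hc l l1 l2
      refine ⟨(k : ℤ) * l, (k : ℤ) * l * d, h4, ?_, h5, prod_mk d _, h6, h7⟩
      intro h8
      have h9 : k * l = 1 := by exact_mod_cast h8
      exact k1.one_lt.ne' (Nat.eq_one_of_mul_eq_one_right h9)
    · by_cases h3 : jacobiSym d 17 = -1
      · obtain ⟨t, ht, hc⟩ := case2 hs h2 h3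
        obtain ⟨l, l1, -, l2⟩ := Pool.Agent.N809.SN.dir (mul_ne_zero (by norm_num) ha) ht 0
        obtain ⟨h4, h5, h6, h7⟩ := hc l l1 l2
        refine ⟨-17 * (l : ℤ), -17 * (l : ℤ) * d, h4, ?_, h5, prod_mk d _, h6, h7⟩
        have := l1.pos
        omega
      · obtain ⟨t, ht, hc⟩ := case1 hs h2 h3
        obtain ⟨l, l1, -, l2⟩ := Pool.Agent.N809.SN.dir (mul_ne_zero (by norm_num) ha) ht 0
        obtain ⟨h4, h5, h6, h7⟩ := hc l l1 l2
        refine ⟨-(l : ℤ), -(l : ℤ) * d, h4, ?_, h5, prod_mk d _, h6, h7⟩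
        have := l1.pos
        omega

end Pool.Agent.Results.MP_d17ed7_nt.LevelSeventeen
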