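import Pool.Agent.N818.RN.Core
import Pool.Agent.W97.TW.Delta

/-!
# MP_d17ed7_nt : simultaneous non-vanishing of two quadratic twists, negative answer

For every cusp form `f` of level one (in particular for every newform of level one, e.g. the
discriminant `Δ`) and every odd quadratic character `χ` (the character of an imaginary quadratic
field), `L(f ⊗ ψ, 1/2) L(f ⊗ χψ, 1/2) = 0` for every quadratic character `ψ`.
-/

set_option autoImplicit false

open Complex UpperHalfPlane MatrixGroups CongruenceSubgroup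

namespace Pool.Agent.Results.MP_d17ed7_nt.RootNumberObstruction

open Pool.Agent.N818.RN

/-- A quadratic character: a primitive Dirichlet character of order exactly `2`. -/
structure QChar where
  /-- the conductor -/
  q : ℕ
  pos : 0 < q
  /-- the character -/
  χ : DirichletCharacter ℂ q
  primitive : χ.IsPrimitive
  order_two : orderOf χ = 2

namespace QChar

theorem sq (ψ : QChar) : ψ.χ ^ 2 = 1 := by
  have := pow_orderOf_eq_one ψ.χ
  rwa [ψ.order_two] at this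

end QChar

theorem lcm_pos' (χ ψ : QChar) : 0 < Nat.lcm χ.q ψ.q := Nat.lcm_pos χ.pos ψ.pos

theorem mul_sq (χ ψ : QChar) : (χ.χ.mul ψ.χ) ^ 2 = 1 := by
  unfold DirichletCharacter.mul
  rw [mul_pow, ← map_pow, ← map_pow, χ.sq, ψ.sq, map_one, map_one, one_mul]

theorem prim_sq (χ ψ : QChar) : (χ.χ.primitive_mul ψ.χ) ^ 2 = 1 := by
  have : NeZero (Nat.lcm χ.q ψ.q) := ⟨(lcm_pos' χ ψ).ne'⟩
  have h := mul_sq χ ψ
  apply DirichletCharacter.changeLevel_injective (R := ℂ) (χ.χ.mul ψ.χ).conductor_dvd_level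
  rw [map_pow, map_one]
  unfold DirichletCharacter.primitive_mul
  rw [DirichletCharacter.changeLevel_primitiveCharacter, h]

theorem conductor_pos (χ ψ : QChar) : 0 < (χ.χ.mul ψ.χ).conductor := by
  refine Nat.pos_of_ne_zero fun h0 => ?_
  have h1 := (χ.χ.mul ψ.χ).conductor_dvd_level
  rw [h0, zero_dvd_iff] at h1
  exact (lcm_pos' χ ψ).ne' h1

theorem prim_apply (χ ψ : QChar) (a : ℤ) (h1 : IsCoprime a χ.q) (h2 : IsCoprime a ψ.q) :
    χ.χ.primitive_mul ψ.χ (a : ZMod _) = χ.χ (a : ZMod χ.q) * ψ.χ (a : ZMod ψ.q) := by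
  have h3 : IsCoprime a ((Nat.lcm χ.q ψ.q : ℕ) : ℤ) := by
    have h4 : IsCoprime a ((χ.q : ℤ) * (ψ.q : ℤ)) := h1.mul_right h2
    refine h4.of_isCoprime_of_dvd_right ?_
    have : Nat.lcm χ.q ψ.q ∣ χ.q * ψ.q := Nat.lcm_dvd_mul _ _
    exact_mod_cast this
  unfold DirichletCharacter.primitive_mul
  rw [DirichletCharacter.primitiveCharacter_apply_of_isCoprime _ h3]
  unfold DirichletCharacter.mul
  rw [MulChar.mul_apply, DirichletCharacter.changeLevel_eq_cast_of_dvd' _ _ h3,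
    DirichletCharacter.changeLevel_eq_cast_of_dvd' _ _ h3]

/-- values at integers prime to the conductor are `± 1` -/
theorem val (ψ : QChar) (a : ℤ) (h : IsCoprime a ψ.q) :
    ψ.χ (a : ZMod ψ.q) = 1 ∨ ψ.χ (a : ZMod ψ.q) = -1 := by
  have h1 : (ψ.χ ^ 2) (a : ZMod ψ.q) = 1 := by
    rw [ψ.sq, MulChar.one_apply]
    exact (ZMod.coe_int_isUnit_iff_isCoprime a ψ.q).2 h.symm
  have h2 : ψ.χ (a : ZMod ψ.q) ^ 2 = 1 := by
    rw [← h1, MulChar.pow_apply' _ two_ne_zero]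
  rw [_root_.sq] at h2
  exact mul_self_eq_one_iff.1 h2

/-- the pair of signs, level `N`, conductors prime to `N` -/
theorem pair (N : ℕ) [NeZero N] (k : ℤ) (hk : 1 ≤ k)
    (f : CuspForm (Gamma0 N : Subgroup (GL (Fin 2) ℝ)) k) (ε : ℂ) (hε : ε = 1 ∨ ε = -1)
    (hf : Fricke N k f ε) (χ ψ : QChar) (hχN : Nat.Coprime χ.q N) (hψN : Nat.Coprime ψ.q N)
    (hχ : χ.χ ((-(N : ℤ) : ℤ) : ZMod χ.q) = -1) (F G : ℂ → ℂ) (hF : IsTwL f ψ.χ F)
    (hG : IsTwL f (χ.χ.primitive_mul ψ.χ) G) : F (1 / 2) * G (1 / 2) = 0 := by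
  have hε0 : ε ≠ 0 := by rcases hε with h | h <;> rw [h] <;> norm_num
  have : NeZero ψ.q := ⟨ψ.pos.ne'⟩
  have : NeZero (χ.χ.mul ψ.χ).conductor := ⟨(conductor_pos χ ψ).ne'⟩
  have c1 : IsCoprime (-(N : ℤ)) (χ.q : ℤ) := (Nat.isCoprime_iff_coprime.2 hχN.symm).neg_left
  have c2 : IsCoprime (-(N : ℤ)) (ψ.q : ℤ) := (Nat.isCoprime_iff_coprime.2 hψN.symm).neg_left
  have hco : Nat.Coprime (χ.χ.mul ψ.χ).conductor N := by
    refine Nat.Coprime.coprime_dvd_left (χ.χ.mul ψ.χ).conductor_dvd_level ?_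
    exact Nat.Coprime.coprime_dvd_left (Nat.lcm_dvd_mul _ _) (hχN.mul_left hψN)
  obtain ⟨F', hF', zF⟩ := exists_twist N k hk f ε hε0 hf ψ.q ψ.χ ψ.primitive ψ.sq hψN
  obtain ⟨G', hG', zG⟩ := exists_twist N k hk f ε hε0 hf _ (χ.χ.primitive_mul ψ.χ)
    (DirichletCharacter.primitive_mul_isPrimitive _ _) (prim_sq χ ψ) hco
  rw [hF.unique hF', hG.unique hG']
  have e1 : ∀ (q : ℕ) (η : DirichletCharacter ℂ q),
      η (-1) * η (N : ZMod q) = η ((-(N : ℤ) : ℤ) : ZMod q) := by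
    intro q η
    rw [← map_mul]
    congr 1
    push_cast
    ring
  rw [e1] at zF zG
  rw [prim_apply χ ψ _ c1 c2, hχ] at zG
  rcases val ψ _ c2 with h | h
  · rcases hε with h' | h'
    · rw [zG (by rw [h, h']; norm_num), mul_zero]
    · rw [zF (by rw [h, h']; norm_num), zero_mul]
  · rcases hε with h' | h'
    · rw [zF (by rw [h, h']; norm_num), zero_mul]
    · rw [zG (by rw [h, h']; norm_num), mul_zero]

/-- forms of level one: the Fricke relation is modularity under `S` -/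
theorem fricke_one (k : ℤ) (f : CuspForm (Gamma0 1 : Subgroup (GL (Fin 2) ℝ)) k) :
    Fricke 1 k f (Complex.I ^ k) := by
  intro τ τ' h
  have h1 := SlashInvariantForm.slash_action_eqn_SL'' (Γ := Gamma0 1) f
    (γ := ModularGroup.S) (by
      rw [Gamma0_mem]
      exact Subsingleton.elim _ _) τ
  have h2 : τ' = ModularGroup.S • τ := by
    ext1
    rw [modular_S_smul]
    change (τ' : ℂ) = (-(τ : ℂ))⁻¹
    have h3 : (τ : ℂ) ≠ 0 := ne_zero τ
    have h4 : (τ' : ℂ) * (τ : ℂ) = -1 := by simpa using h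
    rw [inv_neg, eq_neg_iff_add_eq_zero]
    field_simp
    linear_combination h4
  rw [h2, h1, ModularGroup.denom_S, Nat.cast_one, Real.sqrt_one, Complex.ofReal_one, one_mul,
    ← mul_zpow, mul_div_cancel₀ _ Complex.I_ne_zero]

theorem I_zpow_even (k : ℤ) (hk : Even k) : Complex.I ^ k = 1 ∨ Complex.I ^ k = -1 := by
  obtain ⟨m, rfl⟩ := hk
  rw [zpow_add₀ Complex.I_ne_zero, ← mul_zpow, Complex.I_mul_I]
  rcases Int.even_or_odd m with h | h
  · left; exact h.neg_one_zpow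
  · right; exact h.neg_one_zpow

/-- MAIN RESULT. -/
theorem result :
    -- (A) the twisted `L`-functions of the cusp forms of level one exist (and are unique)
    (∀ (k : ℤ), 1 ≤ k → Even k →
      ∀ f : CuspForm (Gamma0 1 : Subgroup (GL (Fin 2) ℝ)) k,
        (∀ ψ : QChar, ∃! F : ℂ → ℂ, IsTwL f ψ.χ F) ∧
        ∀ χ ψ : QChar, ∃! G : ℂ → ℂ, IsTwL f (χ.χ.primitive_mul ψ.χ) G) ∧
    -- (B) every cusp form of level one, every odd quadratic character `χ`, every `ψ`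
    (∀ (k : ℤ), 1 ≤ k → Even k →
      ∀ f : CuspForm (Gamma0 1 : Subgroup (GL (Fin 2) ℝ)) k,
        ∀ χ : QChar, χ.χ (-1) = -1 → ∀ ψ : QChar, ∀ F G : ℂ → ℂ,
          IsTwL f ψ.χ F → IsTwL f (χ.χ.primitive_mul ψ.χ) G → F (1 / 2) * G (1 / 2) = 0) ∧
    -- (C) the discriminant is a newform of level one and weight 12
    Pool.Agent.W97.TW.IsNewform 1 12 Pool.Agent.W97.TW.deltaForm := by
  refine ⟨?_, ?_, Pool.Agent.W97.TW.isNewform_delta⟩
  · intro k hk _ f
    have hI : Complex.I ^ k ≠ 0 := zpow_ne_zero _ Complex.I_ne_zero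
    refine ⟨fun ψ => ?_, fun χ ψ => ?_⟩
    · have : NeZero ψ.q := ⟨ψ.pos.ne'⟩
      obtain ⟨F, hF, -⟩ := exists_twist 1 k hk f _ hI (fricke_one k f) ψ.q ψ.χ ψ.primitive ψ.sq
        (Nat.coprime_one_right _)
      exact ⟨F, hF, fun G hG => hG.unique hF⟩
    · have : NeZero (χ.χ.mul ψ.χ).conductor := ⟨(conductor_pos χ ψ).ne'⟩
      obtain ⟨F, hF, -⟩ := exists_twist 1 k hk f _ hI (fricke_one k f) _ (χ.χ.primitive_mul ψ.χ)
        (DirichletCharacter.primitive_mul_isPrimitive _ _) (prim_sq χ ψ)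
        (Nat.coprime_one_right _)
      exact ⟨F, hF, fun G hG => hG.unique hF⟩
  · intro k hk hk2 f χ hχ ψ F G hF hG
    refine pair 1 k hk f _ (I_zpow_even k hk2) (fricke_one k f) χ ψ (Nat.coprime_one_right _)
      (Nat.coprime_one_right _) ?_ F G hF hG
    rw [← hχ]
    congr 1
    push_cast
    ring

end Pool.Agent.Results.MP_d17ed7_nt.RootNumberObstruction
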